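import Pool.Agent.Y37.PSP.DAV

set_option autoImplicit false

open Finset

namespace Pool.Agent.X283.AGP

open Pool.Agent.Y727.PSP

/-- squarefree moduli: `a ^ Λ = 1` in the units -/
theorem units_pow {w Λ : ℕ} (hw : Squarefree w) (hΛ : ∀ p : ℕ, p.Prime → p ∣ w → (p - 1) ∣ Λ)
    (u : (ZMod w)ˣ) : u ^ Λ = 1 := by
  have hw0 : w ≠ 0 := hw.ne_zero
  have : NeZero w := ⟨hw0⟩
  set a : ℕ := (u : ZMod w).val with ha
  have hac : Nat.Coprime a w := ZMod.val_coe_unit_coprime u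
  have hau : ((a : ℕ) : ZMod w) = u := ZMod.natCast_zmod_val _
  have h1 : (w : ℕ) ∣ a ^ Λ - 1 := by
    conv_lhs => rw [← Nat.prod_primeFactors_of_squarefree hw]
    apply Finset.prod_primes_dvd
    · intro p hp
      exact (Nat.prime_of_mem_primeFactors hp).prime
    · intro p hp
      have hpp := Nat.prime_of_mem_primeFactors hp
      have hpw := Nat.dvd_of_mem_primeFactors hp
      have hcop : Nat.Coprime a p := Nat.Coprime.coprime_dvd_right hpw hac
      obtain ⟨k, hk⟩ := hΛ p hpp hpw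
      have h2 : a ^ (p - 1) ≡ 1 [MOD p] := by
        have := Nat.ModEq.pow_totient hcop
        rwa [Nat.totient_prime hpp] at this
      have h3 : a ^ Λ ≡ 1 [MOD p] := by
        rw [hk, pow_mul]
        simpa using h2.pow k
      rcases Nat.eq_zero_or_pos (a ^ Λ) with h4 | h4
      · rw [h4]; simp
      · exact (Nat.modEq_iff_dvd' h4).1 h3.symm
  apply Units.ext
  rw [Units.val_pow_eq_pow_val, ← hau, Units.val_one]
  rcases Nat.eq_zero_or_pos (a ^ Λ) with h4 | h4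
  · -- then `w = 1`
    have ha0 : a = 0 := by
      by_contra h
      exact absurd h4 (pow_pos (Nat.pos_of_ne_zero h) _).ne'
    rw [ha0] at hac
    have hw1 : w = 1 := by simpa using hac
    subst hw1
    exact Subsingleton.elim _ _
  · have h5 : a ^ Λ ≡ 1 [MOD w] := ((Nat.modEq_iff_dvd' h4).2 h1).symm
    have h6 := (ZMod.natCast_eq_natCast_iff _ _ _).2 h5
    push_cast at h6
    exact h6

/-- many primes `1 + K d` with `d ∣ w`, `d ≠ w`, give a Carmichael number -/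
theorem carm_of {K w Λ : ℕ} (hw : Squarefree w) (hcop : Nat.Coprime K w) (hΛ1 : 1 ≤ Λ)
    (hΛ : ∀ p : ℕ, p.Prime → p ∣ w → (p - 1) ∣ Λ) (D : Finset ℕ)
    (hD : ∀ d ∈ D, d ∣ w ∧ d ≠ w ∧ (1 + K * d).Prime) (hK : w < K)
    (hcard : (Λ : ℝ) * Real.log w < D.card) :
    ∃ n : ℕ, K < n ∧ ¬ n.Prime ∧ Squarefree n ∧
      (∀ p : ℕ, p.Prime → p ∣ n → (p - 1) ∣ n - 1) ∧
      ∃ S ⊆ D, n = ∏ d ∈ S, (1 + K * d) := by
  classical
  have hw0 : w ≠ 0 := hw.ne_zero
  have : NeZero w := ⟨hw0⟩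
  have hK0 : 0 < K := by omega
  have hcopd : ∀ d : D, Nat.Coprime (1 + K * (d : ℕ)) w := by
    intro d
    obtain ⟨h1, h2, h3⟩ := hD d d.2
    rw [h3.coprime_iff_not_dvd]
    intro h4
    have h5 := Nat.le_of_dvd (Nat.pos_of_ne_zero hw0) h4
    have h6 : 1 ≤ (d : ℕ) := Nat.pos_of_dvd_of_pos h1 (Nat.pos_of_ne_zero hw0)
    nlinarith
  set g : D → (ZMod w)ˣ := fun d => ZMod.unitOfCoprime (1 + K * (d : ℕ)) (hcopd d) with hg
  have hlog : (Λ : ℝ) * Real.log (Fintype.card (ZMod w)ˣ) < Fintype.card D := by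
    rw [Fintype.card_coe]
    refine lt_of_le_of_lt ?_ hcard
    apply mul_le_mul_of_nonneg_left _ (Nat.cast_nonneg _)
    rw [ZMod.card_units_eq_totient]
    apply Real.log_le_log
    · exact_mod_cast Nat.totient_pos.2 (Nat.pos_of_ne_zero hw0)
    · exact_mod_cast Nat.totient_le w
  obtain ⟨S, hS, hprod⟩ := Pool.Agent.Y37.PSP.dav (ZMod w)ˣ Λ hΛ1 (units_pow hw hΛ) D g hlog
  have hmodw : ∏ d ∈ S, (1 + K * (d : ℕ)) ≡ 1 [MOD w] := by
    rw [← ZMod.natCast_eq_natCast_iff]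
    have h1 := congrArg (Units.val) hprod
    rw [Units.coe_prod, Units.val_one] at h1
    push_cast
    refine Eq.trans (prod_congr rfl fun d _ => ?_) h1
    rw [hg]
    simp [ZMod.coe_unitOfCoprime]
  have hmodK : ∏ d ∈ S, (1 + K * (d : ℕ)) ≡ 1 [MOD K] := by
    rw [← ZMod.natCast_eq_natCast_iff]
    push_cast
    simp
  set n : ℕ := ∏ d ∈ S, (1 + K * (d : ℕ)) with hn
  have hmod : n ≡ 1 [MOD K * w] := (Nat.modEq_and_modEq_iff_modEq_mul hcop).1 ⟨hmodK, hmodw⟩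
  have hpr : ∀ d : D, (1 + K * (d : ℕ)).Prime := fun d => (hD d d.2).2.2
  have hdpos : ∀ d : D, 1 ≤ (d : ℕ) := fun d =>
    Nat.pos_of_dvd_of_pos (hD d d.2).1 (Nat.pos_of_ne_zero hw0)
  have hinj : ∀ d d' : D, 1 + K * (d : ℕ) = 1 + K * (d' : ℕ) → d = d' := by
    intro d d' h
    apply Subtype.ext
    have : K * (d : ℕ) = K * (d' : ℕ) := by omega
    exact Nat.eq_of_mul_eq_mul_left hK0 this
  have hn1 : 1 ≤ n := Nat.pos_of_ne_zero (prod_ne_zero_iff.2 fun d _ => (hpr d).ne_zero)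
  -- the set has at least two elements
  have h2 : 1 < S.card := by
    by_contra hcon
    push Not at hcon
    have hc1 : S.card = 1 := le_antisymm hcon (card_pos.2 hS)
    obtain ⟨d, hd⟩ := card_eq_one.1 hc1
    have h3 : n = 1 + K * (d : ℕ) := by rw [hn, hd, prod_singleton]
    have h4 : w ∣ K * (d : ℕ) := by
      have h5 := (Nat.modEq_iff_dvd' (by omega : 1 ≤ 1 + K * (d : ℕ))).1
        (by rw [← h3]; exact hmodw.symm)
      simpa using h5
    have h5 : w ∣ (d : ℕ) := hcop.symm.dvd_of_dvd_mul_left h4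
    exact (hD d d.2).2.1 (Nat.dvd_antisymm (hD d d.2).1 h5)
  refine ⟨n, ?_, ?_, ?_, ?_, Finset.image (fun d : D => (d : ℕ)) S, ?_, ?_⟩
  · obtain ⟨d, hd⟩ := hS
    have h3 : 1 + K * (d : ℕ) ∣ n := dvd_prod_of_mem _ hd
    have h4 := Nat.le_of_dvd hn1 h3
    have h5 := hdpos d
    nlinarith
  · obtain ⟨d, hd, d', hd', hne⟩ := one_lt_card.1 h2
    intro hnp
    have h3 : 1 + K * (d : ℕ) ∣ n := dvd_prod_of_mem _ hd
    have h4 : 1 + K * (d' : ℕ) ∣ n := dvd_prod_of_mem _ hd'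
    have h5 := (Nat.prime_dvd_prime_iff_eq (hpr d) hnp).1 h3
    have h6 := (Nat.prime_dvd_prime_iff_eq (hpr d') hnp).1 h4
    exact hne (hinj d d' (h5.trans h6.symm))
  · rw [hn]
    apply Finset.squarefree_prod_of_pairwise_isCoprime
    · intro d _ d' _ hne
      exact Nat.coprime_iff_isRelPrime.1
        ((Nat.coprime_primes (hpr d) (hpr d')).2 fun h => hne (hinj d d' h))
    · intro d _
      exact (hpr d).squarefree
  · intro p hp hpn
    obtain ⟨d, hd, hpd⟩ := (hp.prime.dvd_finsetProd_iff _).1 hpn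
    have h3 := (Nat.prime_dvd_prime_iff_eq hp (hpr d)).1 hpd
    rw [h3]
    have h4 : K * w ∣ n - 1 := (Nat.modEq_iff_dvd' hn1).1 hmod.symm
    have h5 : 1 + K * (d : ℕ) - 1 = K * d := by omega
    rw [h5]
    exact (Nat.mul_dvd_mul_left K (hD d d.2).1).trans h4
  · intro x hx
    obtain ⟨d, _, rfl⟩ := mem_image.1 hx
    exact d.2
  · rw [prod_image]
    intro d _ d' _ h
    exact Subtype.ext h

end Pool.Agent.X283.AGP
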