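import Mathlib

/-!
# Double counting: one multiplier `K` for many divisors
-/

set_option autoImplicit false

open Finset

namespace Pool.Agent.X283.AGP

theorem harm_le (X : ℕ) : ∑ u ∈ Icc 1 X, (1 : ℝ) / u ≤ 1 + Real.log X := by
  have h := harmonic_le_one_add_log X
  have h2 : ((harmonic X : ℚ) : ℝ) = ∑ u ∈ Icc 1 X, (1 : ℝ) / u := by
    rw [harmonic_eq_sum_Icc]
    push_cast
    refine sum_congr rfl fun i _ => by rw [one_div]
  rw [← h2]
  exact h

/-- the multiples of `e` -/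
theorem sum_mult (X e : ℕ) (he : 1 ≤ e) :
    ∑ K ∈ (Icc 1 X).filter (fun K => e ∣ K), (1 : ℝ) / K ≤ (1 / e) * (1 + Real.log X) := by
  have he0 : (0 : ℝ) < e := by exact_mod_cast he
  have h1 : ∑ K ∈ (Icc 1 X).filter (fun K => e ∣ K), (1 : ℝ) / K ≤
      ∑ k ∈ Icc 1 X, (1 : ℝ) / ((e * k : ℕ) : ℝ) := by
    have hsub : (Icc 1 X).filter (fun K => e ∣ K) ⊆ (Icc 1 X).image (fun k => e * k) := by
      intro K hK
      rw [mem_filter, mem_Icc] at hK
      obtain ⟨⟨h1, h2⟩, k, rfl⟩ := hK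
      rw [mem_image]
      refine ⟨k, ?_, rfl⟩
      rw [mem_Icc]
      have hk : 1 ≤ k := Nat.pos_of_ne_zero (by rintro rfl; simp at h1)
      exact ⟨hk, by nlinarith⟩
    refine (sum_le_sum_of_subset_of_nonneg hsub (fun _ _ _ => by positivity)).trans ?_
    rw [sum_image]
    intro a _ b _ h
    exact Nat.eq_of_mul_eq_mul_left he h
  refine h1.trans ?_
  have h2 : ∑ k ∈ Icc 1 X, (1 : ℝ) / ((e * k : ℕ) : ℝ) = (1 / e) * ∑ k ∈ Icc 1 X, (1 : ℝ) / k := by
    rw [mul_sum]
    refine sum_congr rfl fun k _ => ?_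
    push_cast
    rw [one_div_mul_one_div]
  rw [h2]
  exact mul_le_mul_of_nonneg_left (harm_le X) (by positivity)

/-- the number of divisors of `w` which divide `K` -/
def tau (w K : ℕ) : ℕ := (w.divisors.filter (fun e => e ∣ K)).card

/-- few `K` have many divisors in common with `w` -/
theorem sum_bad (X w M : ℕ) (hw : 1 ≤ w) (hM : 1 ≤ M) (hX : 1 ≤ X) :
    ∑ K ∈ (Icc 1 X).filter (fun K => M ≤ tau w K), (1 : ℝ) / K ≤
      (1 / M) * ((1 + Real.log w) * (1 + Real.log X)) := by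
  have hM0 : (0 : ℝ) < M := by exact_mod_cast hM
  have h1 : ∑ K ∈ (Icc 1 X).filter (fun K => M ≤ tau w K), (1 : ℝ) / K ≤
      (1 / M) * ∑ K ∈ Icc 1 X, (tau w K : ℝ) * (1 / K) := by
    rw [mul_sum, sum_filter]
    refine sum_le_sum fun K hK => ?_
    split_ifs with h
    · have h2 : (M : ℝ) ≤ tau w K := by exact_mod_cast h
      have h3 : (0 : ℝ) ≤ 1 / K := by positivity
      calc (1 : ℝ) / K = (1 / M) * (M * (1 / K)) := by field_simp
        _ ≤ _ := by gcongr
    · positivity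
  refine h1.trans (mul_le_mul_of_nonneg_left ?_ (by positivity))
  have h2 : ∑ K ∈ Icc 1 X, (tau w K : ℝ) * (1 / K) =
      ∑ e ∈ w.divisors, ∑ K ∈ (Icc 1 X).filter (fun K => e ∣ K), (1 : ℝ) / K := by
    have h3 : ∀ K ∈ Icc 1 X, (tau w K : ℝ) * (1 / K) =
        ∑ e ∈ w.divisors, if e ∣ K then (1 : ℝ) / K else 0 := by
      intro K _
      unfold tau
      rw [← sum_filter, sum_const, nsmul_eq_mul]
    rw [sum_congr rfl h3, sum_comm]
    refine sum_congr rfl fun e _ => ?_
    rw [sum_filter]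
  rw [h2]
  have h4 : ∀ e ∈ w.divisors, ∑ K ∈ (Icc 1 X).filter (fun K => e ∣ K), (1 : ℝ) / K ≤
      (1 / e) * (1 + Real.log X) := fun e he =>
    sum_mult X e (Nat.pos_of_mem_divisors he)
  refine (sum_le_sum h4).trans ?_
  rw [← sum_mul]
  have hlX : 0 ≤ Real.log X := Real.log_natCast_nonneg X
  apply mul_le_mul_of_nonneg_right _ (by linarith)
  refine le_trans ?_ (harm_le w)
  apply sum_le_sum_of_subset_of_nonneg
  · intro e he
    rw [mem_Icc]
    exact ⟨Nat.pos_of_mem_divisors he, Nat.divisor_le he⟩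
  · intro _ _ _
    positivity

/-- from the primes `≡ 1 (mod d)` to the multipliers -/
theorem one_d (z X w d : ℕ) (c : ℝ) (hc : 0 < c) (hw : 1 ≤ w) (hd : d ∣ w)
    (h : c / (d.totient : ℝ) ≤ ∑ p ∈ (Ioc z X).filter
      (fun p => p.Prime ∧ p ≡ 1 [MOD d]), (1 : ℝ) / p) :
    c ≤ ∑ K ∈ (Icc 1 X).filter (fun K => z ≤ K * w), if (1 + K * d).Prime then (1 : ℝ) / K else 0 := by
  classical
  have hd1 : 1 ≤ d := Nat.pos_of_dvd_of_pos hd hw
  have hdw : d ≤ w := Nat.le_of_dvd hw hd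
  have hd0 : (0 : ℝ) < d := by exact_mod_cast hd1
  have hφ0 : (0 : ℝ) < (d.totient : ℝ) := by exact_mod_cast Nat.totient_pos.2 hd1
  have hφ : (d.totient : ℝ) ≤ d := by exact_mod_cast Nat.totient_le d
  set A := (Ioc z X).filter (fun p => p.Prime ∧ p ≡ 1 [MOD d]) with hA
  have hAp : ∀ p ∈ A, z < p ∧ p ≤ X ∧ p.Prime ∧ p = 1 + (p - 1) / d * d := by
    intro p hp
    rw [hA, mem_filter, mem_Ioc] at hp
    obtain ⟨⟨h1, h2⟩, h3, h4⟩ := hp
    have h5 : d ∣ p - 1 := (Nat.modEq_iff_dvd' h3.one_le).1 h4.symm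
    refine ⟨h1, h2, h3, ?_⟩
    rw [Nat.div_mul_cancel h5]
    have := h3.one_le
    omega
  set i : ℕ → ℕ := fun p => (p - 1) / d with hi
  have hinj : Set.InjOn i (A : Set ℕ) := by
    intro p hp q hq hpq
    have h1 := (hAp p hp).2.2.2
    have h2 := (hAp q hq).2.2.2
    have h3 : (p - 1) / d = (q - 1) / d := hpq
    rw [h1, h2, h3]
  have h1 : ∑ p ∈ A, (1 : ℝ) / p ≤ (1 / d) * ∑ K ∈ A.image i, (1 : ℝ) / K := by
    rw [sum_image hinj, mul_sum]
    refine sum_le_sum fun p hp => ?_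
    obtain ⟨-, -, h3, h4⟩ := hAp p hp
    have h5 : 1 ≤ i p := by
      by_contra hcon
      have h6 : i p = 0 := by omega
      have h7 : (p - 1) / d = 0 := h6
      rw [h7] at h4
      exact h3.one_lt.ne' (by simpa using h4)
    have h6 : (0 : ℝ) < i p := by exact_mod_cast h5
    have h7 : ((i p : ℕ) : ℝ) * d ≤ p := by
      have : i p * d ≤ p := by
        have : i p = (p - 1) / d := rfl
        rw [this]; omega
      exact_mod_cast this
    rw [one_div_mul_one_div]
    apply one_div_le_one_div_of_le (by positivity)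
    linarith
  have h2 : A.image i ⊆ ((Icc 1 X).filter (fun K => z ≤ K * w)).filter
      (fun K => (1 + K * d).Prime) := by
    intro K hK
    obtain ⟨p, hp, rfl⟩ := mem_image.1 hK
    obtain ⟨h3, h4, h5, h6⟩ := hAp p hp
    have h7 : i p = (p - 1) / d := rfl
    have h8 : 1 + i p * d = p := by rw [h7]; exact h6.symm
    have h9 : 1 ≤ i p := by
      by_contra hcon
      have h6 : i p = 0 := by omega
      rw [h6] at h8
      exact h5.one_lt.ne' (by omega)
    rw [mem_filter, mem_filter, mem_Icc]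
    refine ⟨⟨⟨h9, ?_⟩, ?_⟩, ?_⟩
    · nlinarith
    · have : i p * d ≤ i p * w := Nat.mul_le_mul_left _ hdw
      omega
    · rw [h8]; exact h5
  have h3 : ∑ K ∈ A.image i, (1 : ℝ) / K ≤ ∑ K ∈ (Icc 1 X).filter (fun K => z ≤ K * w),
      if (1 + K * d).Prime then (1 : ℝ) / K else 0 := by
    rw [← sum_filter]
    exact sum_le_sum_of_subset_of_nonneg h2 fun _ _ _ => by positivity
  have h4 : c / d ≤ (1 / d) * ∑ K ∈ A.image i, (1 : ℝ) / K := by
    refine le_trans ?_ (h.trans h1)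
    exact div_le_div_of_nonneg_left hc.le hφ0 hφ
  have h5 : c ≤ ∑ K ∈ A.image i, (1 : ℝ) / K := by
    have h6 := mul_le_mul_of_nonneg_left h4 hd0.le
    have e1 : (d : ℝ) * (c / d) = c := by field_simp
    have e2 : (d : ℝ) * ((1 / d) * ∑ K ∈ A.image i, (1 : ℝ) / K) =
        ∑ K ∈ A.image i, (1 : ℝ) / K := by field_simp
    rwa [e1, e2] at h6
  exact h5.trans h3

/-- one good multiplier -/
theorem exists_K (z X w M : ℕ) (c : ℝ) (hc : 0 < c) (hw : 1 ≤ w) (hM : 1 ≤ M) (hX : 1 ≤ X)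
    (h : ∀ d : ℕ, d ∣ w → c / (d.totient : ℝ) ≤ ∑ p ∈ (Ioc z X).filter
      (fun p => p.Prime ∧ p ≡ 1 [MOD d]), (1 : ℝ) / p)
    (hbad : (1 / M) * ((1 + Real.log w) * (1 + Real.log X)) ≤ c / 2) :
    ∃ K : ℕ, 1 ≤ K ∧ z ≤ K * w ∧ tau w K < M ∧
      c * (w.divisors.card : ℝ) / (4 * (1 + Real.log X)) ≤
        ((w.divisors.filter (fun d => (1 + K * d).Prime)).card : ℝ) := by
  classical
  set D := w.divisors with hD
  set I := (Icc 1 X).filter (fun K => z ≤ K * w) with hI
  set H : ℝ := 1 + Real.log X with hH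
  have hlX : 0 ≤ Real.log X := Real.log_natCast_nonneg X
  have hH1 : 1 ≤ H := by rw [hH]; linarith
  have hDpos : (0 : ℝ) < D.card := by
    have : 0 < D.card := card_pos.2 ⟨1, Nat.one_mem_divisors.2 (by omega)⟩
    exact_mod_cast this
  have h1 : c * D.card ≤ ∑ K ∈ I, (1 : ℝ) / K * ((D.filter (fun d => (1 + K * d).Prime)).card) := by
    have h2 : ∑ _d ∈ D, c ≤ ∑ d ∈ D, ∑ K ∈ I, (if (1 + K * d).Prime then (1 : ℝ) / K else 0) := by
      refine sum_le_sum fun d hd => ?_
      exact one_d z X w d c hc hw (Nat.dvd_of_mem_divisors hd) (h d (Nat.dvd_of_mem_divisors hd))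
    rw [sum_const, nsmul_eq_mul, sum_comm] at h2
    rw [mul_comm c]
    refine h2.trans (le_of_eq ?_)
    refine sum_congr rfl fun K _ => ?_
    rw [← sum_filter, sum_const, nsmul_eq_mul, mul_comm]
  by_contra hcon
  push Not at hcon
  set R : ℝ := c * (D.card : ℝ) / (4 * H) with hR
  have hR0 : 0 ≤ R := by rw [hR]; positivity
  have h2 : ∑ K ∈ I, (1 : ℝ) / K * ((D.filter (fun d => (1 + K * d).Prime)).card) ≤
      ∑ K ∈ I.filter (fun K => M ≤ tau w K), (1 : ℝ) / K * D.card +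
      ∑ K ∈ I.filter (fun K => ¬ M ≤ tau w K), (1 : ℝ) / K * R := by
    rw [← sum_filter_add_sum_filter_not I (fun K => M ≤ tau w K)]
    apply add_le_add
    · refine sum_le_sum fun K _ => ?_
      apply mul_le_mul_of_nonneg_left _ (by positivity)
      exact_mod_cast card_filter_le _ _
    · refine sum_le_sum fun K hK => ?_
      apply mul_le_mul_of_nonneg_left _ (by positivity)
      rw [mem_filter, hI, mem_filter, mem_Icc] at hK
      exact (hcon K hK.1.1.1 hK.1.2 (not_le.1 hK.2)).le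
  have h3 : ∑ K ∈ I.filter (fun K => M ≤ tau w K), (1 : ℝ) / K * D.card ≤ c / 2 * D.card := by
    rw [← sum_mul]
    apply mul_le_mul_of_nonneg_right _ hDpos.le
    refine le_trans ?_ ((sum_bad X w M hw hM hX).trans hbad)
    apply sum_le_sum_of_subset_of_nonneg
    · intro K hK
      rw [mem_filter, hI, mem_filter] at hK
      rw [mem_filter]
      exact ⟨hK.1.1, hK.2⟩
    · intro _ _ _
      positivity
  have h4 : ∑ K ∈ I.filter (fun K => ¬ M ≤ tau w K), (1 : ℝ) / K * R ≤ H * R := by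
    rw [← sum_mul]
    apply mul_le_mul_of_nonneg_right _ hR0
    refine le_trans ?_ (harm_le X)
    apply sum_le_sum_of_subset_of_nonneg
    · intro K hK
      rw [mem_filter, hI, mem_filter] at hK
      exact hK.1.1
    · intro _ _ _
      positivity
  have h5 : H * R = c * D.card / 4 := by
    rw [hR]
    have : H ≠ 0 := by linarith
    field_simp
  have h6 : 0 < c * D.card := by positivity
  have h7 := h1.trans (h2.trans (add_le_add h3 (h4.trans (le_of_eq h5))))
  linarith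

/-- separate the part of the divisors in common with `K` -/
theorem exists_K' (w K M : ℕ) (R : ℝ) (hw : Squarefree w) (hK : 1 ≤ K) (hτ : tau w K < M)
    (hcard : R ≤ ((w.divisors.filter (fun d => (1 + K * d).Prime)).card : ℝ)) :
    ∃ K' w' : ℕ, K ≤ K' ∧ w' ∣ w ∧ Nat.Coprime K' w' ∧
      R / M ≤ ((w'.divisors.filter (fun d => (1 + K' * d).Prime)).card : ℝ) := by
  classical
  have hw0 : w ≠ 0 := hw.ne_zero
  set D := w.divisors.filter (fun d => (1 + K * d).Prime) with hD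
  set E := w.divisors.filter (fun e => e ∣ K) with hE
  have hEcard : E.card = tau w K := rfl
  have hM0 : (0 : ℝ) < M := by
    have : 0 < M := lt_of_le_of_lt (Nat.zero_le _) hτ
    exact_mod_cast this
  have hmaps : ∀ d ∈ D, Nat.gcd d K ∈ E := by
    intro d hd
    rw [hD, mem_filter, Nat.mem_divisors] at hd
    rw [hE, mem_filter, Nat.mem_divisors]
    exact ⟨⟨(Nat.gcd_dvd_left d K).trans hd.1.1, hw0⟩, Nat.gcd_dvd_right d K⟩
  have h1 : (D.card : ℝ) = ∑ e ∈ E, ((D.filter (fun d => Nat.gcd d K = e)).card : ℝ) := by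
    exact_mod_cast card_eq_sum_card_fiberwise hmaps
  have hEne : E.Nonempty := ⟨1, by
    rw [hE, mem_filter, Nat.mem_divisors]
    exact ⟨⟨one_dvd _, hw0⟩, one_dvd _⟩⟩
  obtain ⟨e, he, hemax⟩ := exists_max_image E
    (fun e => ((D.filter (fun d => Nat.gcd d K = e)).card : ℝ)) hEne
  have h2 : (D.card : ℝ) ≤ M * ((D.filter (fun d => Nat.gcd d K = e)).card : ℝ) := by
    rw [h1]
    calc ∑ e' ∈ E, ((D.filter (fun d => Nat.gcd d K = e')).card : ℝ)
        ≤ ∑ _e' ∈ E, ((D.filter (fun d => Nat.gcd d K = e)).card : ℝ) := sum_le_sum hemax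
      _ = E.card * ((D.filter (fun d => Nat.gcd d K = e)).card : ℝ) := by
          rw [sum_const, nsmul_eq_mul]
      _ ≤ _ := by
          apply mul_le_mul_of_nonneg_right _ (Nat.cast_nonneg _)
          rw [hEcard]
          exact_mod_cast hτ.le
  rw [hE, mem_filter, Nat.mem_divisors] at he
  obtain ⟨⟨hew, -⟩, heK⟩ := he
  have he1 : 1 ≤ e := Nat.pos_of_dvd_of_pos hew (Nat.pos_of_ne_zero hw0)
  set g := Nat.gcd w K with hg
  have hgw : g ∣ w := Nat.gcd_dvd_left w K
  obtain ⟨w', hw'⟩ := hgw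
  have hw'w : w' ∣ w := ⟨g, by rw [hw', mul_comm]⟩
  have hsqg : Squarefree (g * w') := hw' ▸ hw
  have hgw' : Nat.Coprime g w' := Nat.coprime_of_squarefree_mul hsqg
  have hKw' : Nat.Coprime K w' := by
    apply Nat.coprime_of_dvd
    intro p hp hpK hpw'
    have h3 : p ∣ g := Nat.dvd_gcd (hpw'.trans hw'w) hpK
    have h4 := Nat.dvd_gcd h3 hpw'
    rw [hgw'] at h4
    exact hp.one_lt.ne' (Nat.dvd_one.1 h4)
  have heg : e ∣ g := Nat.dvd_gcd hew heK
  have hew' : Nat.Coprime e w' := Nat.Coprime.coprime_dvd_left heg hgw'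
  refine ⟨K * e, w', Nat.le_mul_of_pos_right K he1, hw'w, Nat.Coprime.mul_left hKw' hew', ?_⟩
  have h3 : (D.filter (fun d => Nat.gcd d K = e)).card ≤
      (w'.divisors.filter (fun d => (1 + K * e * d).Prime)).card := by
    apply card_le_card_of_injOn (fun d => d / e)
    · intro d hd
      rw [mem_coe, mem_filter, hD, mem_filter, Nat.mem_divisors] at hd
      obtain ⟨⟨⟨hdw, -⟩, hdp⟩, hde⟩ := hd
      have hed : e ∣ d := hde ▸ Nat.gcd_dvd_left d K
      obtain ⟨d', hd'⟩ := hed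
      have hsqd : Squarefree (e * d') := hd' ▸ hw.squarefree_of_dvd hdw
      have hed' : Nat.Coprime e d' := Nat.coprime_of_squarefree_mul hsqd
      have hdiv : d / e = d' := by rw [hd']; exact Nat.mul_div_cancel_left d' he1
      rw [mem_coe, mem_filter, Nat.mem_divisors]
      simp only [hdiv]
      refine ⟨⟨?_, ?_⟩, ?_⟩
      · have h4 : Nat.Coprime d' g := by
          apply Nat.coprime_of_dvd
          intro p hp hpd hpg
          have h5 : p ∣ Nat.gcd d K := Nat.dvd_gcd (hpd.trans ⟨e, by rw [hd', mul_comm]⟩)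
            (hpg.trans (Nat.gcd_dvd_right w K))
          rw [hde] at h5
          have h6 := Nat.dvd_gcd h5 hpd
          rw [hed'] at h6
          exact hp.one_lt.ne' (Nat.dvd_one.1 h6)
        have h5 : d' ∣ g * w' := hw' ▸ (Dvd.intro_left e hd'.symm).trans hdw
        exact h4.dvd_of_dvd_mul_left h5
      · rintro rfl
        rw [mul_zero] at hw'
        exact hw0 hw'
      · rw [hd', ← mul_assoc] at hdp
        exact hdp
    · intro d hd d₂ hd₂ hdd
      rw [mem_coe, mem_filter] at hd hd₂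
      have hed : e ∣ d := hd.2 ▸ Nat.gcd_dvd_left d K
      have hed₂ : e ∣ d₂ := hd₂.2 ▸ Nat.gcd_dvd_left d₂ K
      have h4 : d / e = d₂ / e := hdd
      rw [← Nat.div_mul_cancel hed, ← Nat.div_mul_cancel hed₂, h4]
  have h4 : ((D.filter (fun d => Nat.gcd d K = e)).card : ℝ) ≤
      ((w'.divisors.filter (fun d => (1 + K * e * d).Prime)).card : ℝ) := by exact_mod_cast h3
  rw [div_le_iff₀ hM0]
  calc R ≤ D.card := hcard
    _ ≤ M * ((D.filter (fun d => Nat.gcd d K = e)).card : ℝ) := h2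
    _ ≤ M * ((w'.divisors.filter (fun d => (1 + K * e * d).Prime)).card : ℝ) := by gcongr
    _ = _ := mul_comm _ _

end Pool.Agent.X283.AGP
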