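import Mathlib

/-!
# Fermat liars of a Carmichael number
-/

set_option autoImplicit false

open Finset

namespace Pool.Agent.X283.AGP

theorem liar_of_coprime {n a : ℕ} (hn : Squarefree n) (hn1 : 1 < n)
    (hp : ∀ p : ℕ, p.Prime → p ∣ n → (p - 1) ∣ n - 1) (ha : Nat.Coprime a n) :
    a ^ (n - 1) ≡ 1 [MOD n] := by
  have ha0 : 0 < a := by
    rcases Nat.eq_zero_or_pos a with h | h
    · subst h
      have : n = 1 := by simpa using ha
      omega
    · exact h
  have h1 : n ∣ a ^ (n - 1) - 1 := by
    conv_lhs => rw [← Nat.prod_primeFactors_of_squarefree hn]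
    apply Finset.prod_primes_dvd
    · intro p hp
      exact (Nat.prime_of_mem_primeFactors hp).prime
    · intro p hpm
      have hpp := Nat.prime_of_mem_primeFactors hpm
      have hpn := Nat.dvd_of_mem_primeFactors hpm
      have hcop : Nat.Coprime a p := Nat.Coprime.coprime_dvd_right hpn ha
      obtain ⟨k, hk⟩ := hp p hpp hpn
      have h2 : a ^ (p - 1) ≡ 1 [MOD p] := by
        have := Nat.ModEq.pow_totient hcop
        rwa [Nat.totient_prime hpp] at this
      have h3 : a ^ (n - 1) ≡ 1 [MOD p] := by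
        rw [hk, pow_mul]
        simpa using h2.pow k
      exact (Nat.modEq_iff_dvd' (pow_pos ha0 _)).1 h3.symm
  exact ((Nat.modEq_iff_dvd' (pow_pos ha0 _)).2 h1).symm

theorem card_mult_lt {n p : ℕ} (hp : 1 ≤ p) (hpn : p ∣ n) :
    (((range n).filter (fun a => p ∣ a)).card : ℝ) ≤ n / p := by
  obtain ⟨k, rfl⟩ := hpn
  have hp0 : (0 : ℝ) < p := by exact_mod_cast hp
  have hsub : (range (p * k)).filter (fun a => p ∣ a) ⊆ (range k).image (fun j => p * j) := by
    intro a ha
    rw [mem_filter, mem_range] at ha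
    obtain ⟨h1, j, rfl⟩ := ha
    rw [mem_image]
    exact ⟨j, mem_range.2 (Nat.lt_of_mul_lt_mul_left h1), rfl⟩
  have h1 : ((range (p * k)).filter (fun a => p ∣ a)).card ≤ k := by
    refine (card_le_card hsub).trans (card_image_le.trans ?_)
    rw [card_range]
  push_cast
  rw [mul_div_cancel_left₀ _ hp0.ne']
  exact_mod_cast h1

/-- the number of Fermat liars -/
theorem liars {n T : ℕ} {Y : ℝ} (hn : Squarefree n) (hn1 : 1 < n)
    (hp : ∀ p : ℕ, p.Prime → p ∣ n → (p - 1) ∣ n - 1) (hT : n.primeFactors.card ≤ T)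
    (hY0 : 0 < Y) (hY : ∀ p : ℕ, p.Prime → p ∣ n → Y ≤ p) :
    (n : ℝ) - T * (n / Y) ≤
      (((range n).filter (fun a => a ^ (n - 1) ≡ 1 [MOD n])).card : ℝ) := by
  classical
  have hn0 : n ≠ 0 := by omega
  have h1 : (n : ℝ) ≤ (((range n).filter (fun a => a ^ (n - 1) ≡ 1 [MOD n])).card : ℝ) +
      ∑ p ∈ n.primeFactors, (((range n).filter (fun a => p ∣ a)).card : ℝ) := by
    have hsub : range n ⊆ ((range n).filter (fun a => a ^ (n - 1) ≡ 1 [MOD n])) ∪
        n.primeFactors.biUnion (fun p => (range n).filter (fun a => p ∣ a)) := by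
      intro a ha
      rw [mem_union]
      by_cases hc : Nat.Coprime a n
      · left
        rw [mem_filter]
        exact ⟨ha, liar_of_coprime hn hn1 hp hc⟩
      · right
        obtain ⟨p, hpp, hpa, hpn⟩ := Nat.Prime.not_coprime_iff_dvd.1 hc
        rw [mem_biUnion]
        exact ⟨p, Nat.mem_primeFactors.2 ⟨hpp, hpn, hn0⟩, mem_filter.2 ⟨ha, hpa⟩⟩
    have h2 := (card_le_card hsub).trans ((card_union_le _ _).trans
      (Nat.add_le_add_left card_biUnion_le _))
    rw [card_range] at h2
    exact_mod_cast h2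
  have h2 : ∑ p ∈ n.primeFactors, (((range n).filter (fun a => p ∣ a)).card : ℝ) ≤
      T * (n / Y) := by
    calc ∑ p ∈ n.primeFactors, (((range n).filter (fun a => p ∣ a)).card : ℝ)
        ≤ ∑ _p ∈ n.primeFactors, (n : ℝ) / Y := by
          refine sum_le_sum fun p hpm => ?_
          have hpp := Nat.prime_of_mem_primeFactors hpm
          have hpn := Nat.dvd_of_mem_primeFactors hpm
          refine (card_mult_lt hpp.one_le hpn).trans ?_
          exact div_le_div_of_nonneg_left (Nat.cast_nonneg _) hY0 (hY p hpp hpn)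
      _ = n.primeFactors.card * ((n : ℝ) / Y) := by rw [sum_const, nsmul_eq_mul]
      _ ≤ T * (n / Y) := by
          apply mul_le_mul_of_nonneg_right _ (by positivity)
          exact_mod_cast hT
  linarith

/-- a squarefree number has `2 ^ ω` divisors (lower bound) -/
theorem two_pow_le_card_divisors {w : ℕ} (hw : w ≠ 0) :
    2 ^ w.primeFactors.card ≤ w.divisors.card := by
  rw [Nat.card_divisors hw, ← prod_const]
  apply prod_le_prod'
  intro p hp
  have hpp := Nat.prime_of_mem_primeFactors hp
  have h1 : 0 < w.factorization p := hpp.factorization_pos_of_dvd hw (Nat.dvd_of_mem_primeFactors hp)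
  omega

end Pool.Agent.X283.AGP
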