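import Pool.Agent.X283.AGP.Prm
import Pool.Agent.X283.AGP.Cnt
import Pool.Agent.X283.AGP.Carm
import Pool.Agent.X283.AGP.Fl

/-!
# Carmichael numbers with `F(n) / n` close to `1`
-/

set_option autoImplicit false

open Finset Filter

namespace Pool.Agent.X283.AGP

/-- the elementary asymptotic estimates -/
theorem ev_l (K₀ : ℕ) (c ε : ℝ) (N : ℕ) (hc : 0 < c) (hε : 0 < ε) : ∀ᶠ l : ℝ in atTop,
    16 ≤ l ∧ 16 * (K₀ : ℝ) / c ≤ l ∧ (N : ℝ) + 1 < Real.exp (l / 2) ∧
      Real.exp (-(l / 2)) < ε := by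
  have h1 : Tendsto (fun l : ℝ => Real.exp (l / 2)) atTop atTop :=
    Real.tendsto_exp_atTop.comp (tendsto_id.atTop_div_const (by norm_num))
  have h2 : Tendsto (fun l : ℝ => Real.exp (-(l / 2))) atTop (nhds 0) :=
    Real.tendsto_exp_neg_atTop_nhds_zero.comp (tendsto_id.atTop_div_const (by norm_num))
  filter_upwards [eventually_ge_atTop (16 : ℝ), eventually_ge_atTop (16 * (K₀ : ℝ) / c),
    h1.eventually_gt_atTop ((N : ℝ) + 1), h2.eventually_lt_const hε] with l a1 a2 a3 a4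
  exact ⟨a1, a2, a3, a4⟩

/-- Carmichael numbers almost all of whose residues are Fermat liars -/
theorem main (ε : ℝ) (hε : 0 < ε) (N : ℕ) : ∃ n : ℕ, N < n ∧ 1 < n ∧ ¬ Nat.Prime n ∧
    Squarefree n ∧ (∀ p : ℕ, p.Prime → p ∣ n → (p - 1) ∣ n - 1) ∧
    (1 - ε) * (n : ℝ) <
      (((Finset.range n).filter (fun a => a ^ (n - 1) ≡ 1 [MOD n])).card : ℝ) := by
  classical
  obtain ⟨K₀, c, hK₀, hc, hprm⟩ := prm_div
  obtain ⟨z₁, hz₁⟩ := hprm 20
  have htend : Tendsto (fun z : ℕ => Real.log z) atTop atTop :=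
    Real.tendsto_log_atTop.comp tendsto_natCast_atTop_atTop
  obtain ⟨z, hz, hzz₁, hz1⟩ := ((htend.eventually (ev_l K₀ c ε N hc hε)).and
    ((eventually_ge_atTop z₁).and (eventually_ge_atTop 1))).exists
  obtain ⟨w, Λ, hsq, hΛ1, hwp, hwle, hwΛ, hwd⟩ := hz₁ z hzz₁
  obtain ⟨hl16, hlK, hlN, hlε⟩ := hz
  set l : ℝ := Real.log z with hl
  have hl0 : 0 < l := by linarith
  have hz0 : (0 : ℝ) < z := by exact_mod_cast hz1
  have hzexp : (z : ℝ) = Real.exp l := (Real.exp_log hz0).symm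
  have hw0 : w ≠ 0 := hsq.ne_zero
  have hw1 : 1 ≤ w := Nat.pos_of_ne_zero hw0
  have hwr : (0 : ℝ) < w := by exact_mod_cast hw1
  have hK₀r : (1 : ℝ) ≤ K₀ := by exact_mod_cast hK₀
  have hsl : Real.sqrt l ≤ l / 4 := by
    rw [Real.sqrt_le_left (by linarith)]
    nlinarith
  have hlogw : Real.log w ≤ Real.sqrt l := by
    rw [Real.log_le_iff_le_exp hwr]
    exact hwle
  have hlogw0 : 0 ≤ Real.log w := Real.log_natCast_nonneg w
  set X : ℕ := z ^ K₀ with hX
  have hX1 : 1 ≤ X := Nat.one_le_pow _ _ hz1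
  have hlogX : Real.log X = K₀ * l := by
    rw [hX]
    push_cast
    rw [Real.log_pow]
  set ω := w.primeFactors.card with hω
  set M : ℕ := 2 ^ (ω / 8) with hM
  have hM1 : 1 ≤ M := Nat.one_le_two_pow
  have hM0 : (0 : ℝ) < M := by exact_mod_cast hM1
  have hM4 : (2 : ℝ) ^ (ω / 2) ≤ 8 * (M : ℝ) ^ 4 := by
    rw [hM]
    push_cast
    rw [← pow_mul]
    calc (2 : ℝ) ^ (ω / 2) ≤ 2 ^ (3 + ω / 8 * 4) := pow_le_pow_right₀ (by norm_num) (by omega)
      _ = 8 * 2 ^ (ω / 8 * 4) := by rw [pow_add]; norm_num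
  have hΛr : (1 : ℝ) ≤ Λ := by exact_mod_cast hΛ1
  have hl20 : (l ^ 5 / 2) ^ 4 ≤ (M : ℝ) ^ 4 := by
    have h1 : l ^ 20 ≤ l ^ 20 * Λ := le_mul_of_one_le_right (by positivity) hΛr
    have h2 := h1.trans (hwΛ.trans hM4)
    have h3 : (l ^ 5 / 2) ^ 4 = l ^ 20 / 16 := by ring
    rw [h3]
    have h4 : (0 : ℝ) ≤ (M : ℝ) ^ 4 := by positivity
    linarith
  have hMl : l ^ 5 / 2 ≤ M := le_of_pow_le_pow_left₀ (by norm_num) hM0.le hl20
  have hKc : 8 * (K₀ : ℝ) ≤ (c / 2) * l := by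
    rw [div_le_iff₀ hc] at hlK
    linarith
  have hbad : (1 / (M : ℝ)) * ((1 + Real.log w) * (1 + Real.log X)) ≤ c / 2 := by
    rw [hlogX, one_div_mul_eq_div, div_le_iff₀ hM0]
    have h1 : 1 + Real.log w ≤ l := by linarith
    have h2 : 1 + K₀ * l ≤ 2 * K₀ * l := by nlinarith
    calc (1 + Real.log w) * (1 + K₀ * l) ≤ l * (2 * K₀ * l) :=
          mul_le_mul h1 h2 (by positivity) hl0.le
      _ = (8 * (K₀ : ℝ)) * (l ^ 2 / 4) := by ring
      _ ≤ (c / 2) * l * (l ^ 2 / 4) := mul_le_mul_of_nonneg_right hKc (by positivity)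
      _ = (c / 2) * (l ^ 3 / 4) := by ring
      _ ≤ (c / 2) * (l ^ 5 / 2) := by
          apply mul_le_mul_of_nonneg_left _ (by positivity)
          have h3 : l ^ 3 ≤ l ^ 5 := pow_le_pow_right₀ (by linarith) (by norm_num)
          have h4 : 0 ≤ l ^ 3 := by positivity
          linarith
      _ ≤ (c / 2) * M := mul_le_mul_of_nonneg_left hMl (by positivity)
  obtain ⟨K, hK1, hKw, hτ, hcardK⟩ := exists_K z X w M c hc hw1 hM1 hX1 hwd hbad
  obtain ⟨K', w', hKK', hw'w, hcop, hcard'⟩ := exists_K' w K M _ hsq hK1 hτ hcardK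
  have hsq' : Squarefree w' := hsq.squarefree_of_dvd hw'w
  have hw'0 : w' ≠ 0 := hsq'.ne_zero
  have hw'1 : 1 ≤ w' := Nat.pos_of_ne_zero hw'0
  have hw'le : w' ≤ w := Nat.le_of_dvd hw1 hw'w
  -- the size of `K`
  have hwexp : (w : ℝ) ≤ Real.exp (l / 4) := hwle.trans (Real.exp_le_exp.2 hsl)
  have hKbig : (w : ℝ) * Real.exp (l / 2) ≤ K := by
    have h1 : (z : ℝ) ≤ K * w := by exact_mod_cast hKw
    have h2 : (w : ℝ) * Real.exp (l / 2) * w ≤ K * w := by
      refine le_trans ?_ h1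
      calc (w : ℝ) * Real.exp (l / 2) * w ≤
          Real.exp (l / 4) * Real.exp (l / 2) * Real.exp (l / 4) := by gcongr
        _ = z := by
            rw [← Real.exp_add, ← Real.exp_add, hzexp]
            congr 1
            ring
    exact le_of_mul_le_mul_right h2 hwr
  have hexp1 : 1 < Real.exp (l / 2) := Real.one_lt_exp_iff.2 (by linarith)
  have hwK : (w : ℝ) < K := by
    have : (w : ℝ) < w * Real.exp (l / 2) := lt_mul_of_one_lt_right hwr hexp1
    linarith
  have hwKn : w < K := by exact_mod_cast hwK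
  have hK'r : (K : ℝ) ≤ K' := by exact_mod_cast hKK'
  have hK'0 : (0 : ℝ) < K' := by linarith
  -- the number of primes
  set H : ℝ := 1 + Real.log X with hH
  have hH0 : 0 < H := by rw [hH, hlogX]; positivity
  have hH2 : H ≤ 2 * K₀ * l := by rw [hH, hlogX]; nlinarith
  have hdiv : (2 : ℝ) ^ (ω / 2) * M ≤ (w.divisors.card : ℝ) := by
    have h1 : 2 ^ (ω / 2) * M ≤ w.divisors.card := by
      refine le_trans ?_ (two_pow_le_card_divisors hw0)
      rw [hM, ← pow_add]
      exact Nat.pow_le_pow_right (by norm_num) (by omega)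
    exact_mod_cast h1
  have hR : 2 * l * Λ ≤ c * (w.divisors.card : ℝ) / (4 * H) / M := by
    rw [le_div_iff₀ hM0, le_div_iff₀ (by positivity)]
    have h1 : l ^ 20 * Λ * M ≤ (w.divisors.card : ℝ) :=
      (mul_le_mul_of_nonneg_right hwΛ hM0.le).trans hdiv
    have h2 : 4 * H ≤ c * l ^ 2 := by
      have h5 : 0 ≤ c * l ^ 2 := by positivity
      calc 4 * H ≤ 4 * (2 * K₀ * l) := by linarith
        _ = (8 * (K₀ : ℝ)) * l := by ring
        _ ≤ (c / 2 * l) * l := mul_le_mul_of_nonneg_right hKc hl0.le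
        _ = c * l ^ 2 / 2 := by ring
        _ ≤ c * l ^ 2 := by linarith
    calc 2 * l * Λ * M * (4 * H) ≤ 2 * l * Λ * M * (c * l ^ 2) := by gcongr
      _ = c * ((2 * l ^ 3) * (Λ * M)) := by ring
      _ ≤ c * (l ^ 20 * (Λ * M)) := by
          apply mul_le_mul_of_nonneg_left _ hc.le
          apply mul_le_mul_of_nonneg_right _ (by positivity)
          have h3 : l ^ 4 ≤ l ^ 20 := pow_le_pow_right₀ (by linarith) (by norm_num)
          have h4 : 2 * l ^ 3 ≤ l ^ 4 := by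
            have : l ^ 4 = l * l ^ 3 := by ring
            rw [this]
            apply mul_le_mul_of_nonneg_right (by linarith) (by positivity)
          linarith
      _ = c * (l ^ 20 * Λ * M) := by ring
      _ ≤ _ := mul_le_mul_of_nonneg_left h1 hc.le
  set D := (w'.divisors.filter (fun d => (1 + K' * d).Prime)).erase w' with hD
  have hDcard : 2 * l * Λ - 1 ≤ D.card := by
    have h1 : (w'.divisors.filter (fun d => (1 + K' * d).Prime)).card ≤ D.card + 1 := by
      have h0 := Finset.pred_card_le_card_erase (a := w')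
        (s := w'.divisors.filter (fun d => (1 + K' * d).Prime))
      rw [← hD] at h0
      omega
    have h2 : ((w'.divisors.filter (fun d => (1 + K' * d).Prime)).card : ℝ) ≤ D.card + 1 := by
      exact_mod_cast h1
    have h3 := hR.trans hcard'
    linarith
  have hcardlt : (Λ : ℝ) * Real.log w' < D.card := by
    have hw'r : (0 : ℝ) < w' := by exact_mod_cast hw'1
    have hw'ler : (w' : ℝ) ≤ w := by exact_mod_cast hw'le
    have h1 : Real.log w' ≤ l / 4 := by
      have h0 := Real.log_le_log hw'r hw'ler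
      linarith
    have h2 : (Λ : ℝ) * Real.log w' ≤ Λ * (l / 4) := mul_le_mul_of_nonneg_left h1 (by linarith)
    have h3 : 16 ≤ l * Λ := by
      calc (16 : ℝ) = 16 * 1 := by ring
        _ ≤ l * Λ := mul_le_mul hl16 hΛr (by norm_num) hl0.le
    have h4 : (Λ : ℝ) * (l / 4) = (l * Λ) / 4 := by ring
    have h5 : 2 * l * Λ = 2 * (l * Λ) := by ring
    rw [h5] at hDcard
    linarith
  have hDprop : ∀ d ∈ D, d ∣ w' ∧ d ≠ w' ∧ (1 + K' * d).Prime := by
    intro d hd
    rw [hD, mem_erase, mem_filter, Nat.mem_divisors] at hd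
    exact ⟨hd.2.1.1, hd.1, hd.2.2⟩
  obtain ⟨n, hnK, hnp, hnsq, hndvd, S, hSD, hnS⟩ := carm_of hsq' hcop hΛ1
    (fun p hp hpw => (hwp p hp (hpw.trans hw'w)).1) D hDprop (by omega) hcardlt
  have hnKr : (K' : ℝ) < n := by exact_mod_cast hnK
  have hn1 : 1 < n := by omega
  have hn0 : (0 : ℝ) < n := by linarith
  have hNn : N < n := by
    have h1 : Real.exp (l / 2) ≤ (w : ℝ) * Real.exp (l / 2) :=
      le_mul_of_one_le_left (Real.exp_pos _).le (by exact_mod_cast hw1)
    have h2 : (N : ℝ) < n := by linarith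
    exact_mod_cast h2
  refine ⟨n, hNn, hn1, hnp, hnsq, hndvd, ?_⟩
  -- the prime factors
  have hpf : n.primeFactors ⊆ S.image (fun d => 1 + K' * d) := by
    intro p hp
    have hpp := Nat.prime_of_mem_primeFactors hp
    have hpn := Nat.dvd_of_mem_primeFactors hp
    rw [hnS] at hpn
    obtain ⟨d, hd, hpd⟩ := (hpp.prime.dvd_finsetProd_iff _).1 hpn
    have h3 := (Nat.prime_dvd_prime_iff_eq hpp (hDprop d (hSD hd)).2.2).1 hpd
    exact mem_image.2 ⟨d, hd, h3.symm⟩
  have hpfcard : n.primeFactors.card ≤ w := by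
    calc n.primeFactors.card ≤ S.card := (card_le_card hpf).trans card_image_le
      _ ≤ D.card := card_le_card hSD
      _ ≤ w'.divisors.card := (card_erase_le).trans (card_filter_le _ _)
      _ ≤ w' := Nat.card_divisors_le_self w'
      _ ≤ w := hw'le
  have hY : ∀ p : ℕ, p.Prime → p ∣ n → (K' : ℝ) ≤ p := by
    intro p hp hpn
    have hpm : p ∈ n.primeFactors := Nat.mem_primeFactors.2 ⟨hp, hpn, by omega⟩
    obtain ⟨d, hd, rfl⟩ := mem_image.1 (hpf hpm)
    have hd1 : 1 ≤ d := Nat.pos_of_dvd_of_pos (hDprop d (hSD hd)).1 hw'1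
    have : K' ≤ 1 + K' * d := (Nat.le_mul_of_pos_right K' hd1).trans (Nat.le_add_left _ _)
    exact_mod_cast this
  have hfin := liars hnsq hn1 hndvd hpfcard hK'0 hY
  refine lt_of_lt_of_le ?_ hfin
  have h1 : (w : ℝ) * (n / K') < ε * n := by
    have h2 : (w : ℝ) / K' ≤ Real.exp (-(l / 2)) := by
      rw [div_le_iff₀ hK'0, Real.exp_neg, inv_mul_eq_div, le_div_iff₀ (Real.exp_pos _)]
      linarith
    have h3 : (w : ℝ) * (n / K') = (w / K') * n := by ring
    rw [h3]
    exact mul_lt_mul_of_pos_right (lt_of_le_of_lt h2 hlε) hn0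
  linarith

end Pool.Agent.X283.AGP
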