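import Pool.Agent.Y79.PSP.PRMTop
import Pool.Agent.Y950.Z.Smo
import Pool.Agent.Y122.PSP.Bad

/-!
# Primes `≡ 1 (mod d)` for all divisors `d` of a suitable `w`
-/

set_option autoImplicit false

namespace Pool.Agent.X283.AGP

open Finset
open Pool.Agent.H262R3.Lk Pool.Agent.W69.MH
open Pool.Agent.H318R2.Cr (Rgh)
open Pool.Agent.Y727.PSP
open Pool.Agent.Y79.PSP.PRM

theorem prm_div' (hLIN : St_LIN) (hTAIL : St_TAIL) (hSWQ : St_SWQ) (h1 : S_SMO) (h2 : S_BAD) :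
    ∃ (K₀ : ℕ) (c : ℝ), 1 ≤ K₀ ∧ 0 < c ∧ ∀ B : ℕ, ∃ z₁ : ℕ, ∀ z : ℕ, z₁ ≤ z →
  ∃ w Λ : ℕ, Squarefree w ∧ 1 ≤ Λ ∧ (∀ p : ℕ, p.Prime → p ∣ w → (p - 1) ∣ Λ ∧
    (p : ℝ) ≤ Real.log z) ∧ (w : ℝ) ≤ Real.exp (Real.sqrt (Real.log z)) ∧
  Real.log z ^ B * Λ ≤ 2 ^ (w.primeFactors.card / 2) ∧
  ∀ d : ℕ, d ∣ w →
    c / (d.totient : ℝ) ≤ ∑ p ∈ (Ioc z (z ^ K₀)).filter
      (fun p => p.Prime ∧ p ≡ 1 [MOD d]), (1 : ℝ) / p := by
  classical
  obtain ⟨A, c, K, z₀, hA, hc, hK, hlow⟩ := lower hLIN hTAIL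
  obtain ⟨cS, hcS, y₀, hS⟩ := h1
  obtain ⟨E, zB, hBAD⟩ := h2
  refine ⟨K, c, hK, hc, fun B => ?_⟩
  set B₃ := 2 * B + E + 1 with hB₃
  set B₁ := 2 * B + 20 * B₃ with hB₁
  obtain ⟨zW, hSW⟩ := hSWQ B₁
  obtain ⟨zA, hzA⟩ := asym A cS hcS B (max y₀ 2)
  refine ⟨max (max z₀ zB) (max zW zA), fun z hz => ?_⟩
  have hz₀ : z₀ ≤ z := ((le_max_left _ _).trans (le_max_left _ _)).trans hz
  have hzB : zB ≤ z := ((le_max_right _ _).trans (le_max_left _ _)).trans hz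
  have hzW : zW ≤ z := ((le_max_left _ _).trans (le_max_right _ _)).trans hz
  obtain ⟨m, hm, hl1, hlA, hml, hw, hq8, hcard, hΛ⟩ :=
    hzA z (((le_max_right _ _).trans (le_max_right _ _)).trans hz)
  set ℓ : ℝ := Real.log z with hℓ
  have hl0 : 0 < ℓ := by linarith
  have hm2 : 2 ≤ m := (le_max_right _ _).trans hm
  have hmy : y₀ ≤ m ^ 20 := ((le_max_left _ _).trans hm).trans (Nat.le_self_pow (by norm_num) m)
  have hmr : (2 : ℝ) ≤ m := by exact_mod_cast hm2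
  obtain ⟨Ps, Λ, hPs, hPsc, hΛ1, hΛy⟩ := hS (m ^ 20) hmy
  -- the pool of primes
  have hcard2 : 2 * m * m ^ 18 ≤ Ps.card := by
    have h3 : ((2 * m * m ^ 18 : ℕ) : ℝ) ≤ Ps.card := by
      refine hcard.trans ?_
      push_cast at hPsc
      exact hPsc
    exact_mod_cast h3
  have hemb : Nonempty (Fin (m ^ 18) × Fin (2 * m) ↪ Ps) := by
    apply Function.Embedding.nonempty_of_card_le
    rw [Fintype.card_prod, Fintype.card_fin, Fintype.card_fin, Fintype.card_coe]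
    linarith
  obtain ⟨emb⟩ := hemb
  set e : Fin (m ^ 18) × Fin (2 * m) → ℕ := fun x => (emb x : ℕ) with he
  have hinj : Function.Injective e := fun x y hxy => emb.injective (Subtype.ext hxy)
  have hprime : ∀ x, (e x).Prime := fun x => (hPs _ (emb x).2).1
  have hle : ∀ x, e x ≤ m ^ 20 := fun x => (hPs _ (emb x).2).2.1
  have hdvd : ∀ x, (e x - 1) ∣ Λ := fun x => (hPs _ (emb x).2).2.2
  -- the bad conductors
  set s : ℝ := 1 / (A * ℓ) with hs
  have hs0 : 0 < s := by positivity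
  have hs1 : s ≤ 1 := by
    rw [hs, div_le_one (by positivity)]
    nlinarith
  have hs2 : 1 / ℓ ^ 2 ≤ s := by
    rw [hs]
    apply one_div_le_one_div_of_le (by positivity)
    rw [pow_two]
    exact mul_le_mul_of_nonneg_right hlA hl0.le
  set Q : ℕ := Nat.sqrt (Nat.sqrt z) with hQ
  have hQ4 : Q ^ 4 ≤ z := by
    have h3 : Q * Q ≤ Nat.sqrt z := Nat.sqrt_le _
    have h4 : Nat.sqrt z * Nat.sqrt z ≤ z := Nat.sqrt_le _
    calc Q ^ 4 = (Q * Q) * (Q * Q) := by ring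
      _ ≤ Nat.sqrt z * Nat.sqrt z := Nat.mul_le_mul h3 h3
      _ ≤ z := h4
  have hBd := hBAD z hzB s hs2 hs1 Q hQ4
  set Bd : Finset ℕ := (Icc 2 Q).filter (fun f => ∃ χ : DirichletCharacter ℂ f,
    χ.IsPrimitive ∧ ‖Lj z χ 0 s‖ < 1 / 2) with hBddef
  set T : ℕ → Finset (Fin (m ^ 18) × Fin (2 * m)) := fun f => univ.filter (fun x => e x ∣ f)
    with hT
  set Bad : ℕ → Finset (Fin (m ^ 18) × Fin (2 * m)) → Prop := fun f R =>
    ℓ ^ (20 * B₃) < ((m : ℝ) ^ 20) ^ R.card ∧ (2 : ℝ) ^ ((T f).card - R.card) ≤ ℓ ^ (2 * B)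
    with hBad
  obtain ⟨σ, hσ⟩ := exists_good (h := m ^ 18) (g := 2 * m) (by omega) Bd T Bad (1 / ℓ ^ (E + 1))
    (by positivity) (by
      rintro f hf R hR ⟨hb1, hb2⟩
      have hRT : R.card ≤ (T f).card := card_le_card hR
      have h3 : ℓ ^ B₃ < (m : ℝ) ^ R.card := by
        by_contra hcon
        push Not at hcon
        have h4 := pow_le_pow_left₀ (by positivity) hcon 20
        rw [← pow_mul, ← pow_mul, mul_comm R.card, pow_mul, mul_comm B₃] at h4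
        linarith
      have h5 : (2 : ℝ) ^ (T f).card = 2 ^ ((T f).card - R.card) * 2 ^ R.card := by
        rw [← pow_add, Nat.sub_add_cancel hRT]
      have h6 : ℓ ^ (2 * B) * ℓ ^ (E + 1) ≤ (m : ℝ) ^ R.card := by
        rw [← pow_add]
        have : 2 * B + (E + 1) = B₃ := by omega
        rw [this]
        exact h3.le
      rw [h5, one_div_mul_eq_div, le_div_iff₀ (by positivity)]
      push_cast
      rw [mul_pow]
      calc (2 : ℝ) ^ ((T f).card - R.card) * 2 ^ R.card * ℓ ^ (E + 1)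
          ≤ ℓ ^ (2 * B) * 2 ^ R.card * ℓ ^ (E + 1) := by gcongr
        _ = 2 ^ R.card * (ℓ ^ (2 * B) * ℓ ^ (E + 1)) := by ring
        _ ≤ 2 ^ R.card * (m : ℝ) ^ R.card := mul_le_mul_of_nonneg_left h6 (by positivity))
    (by
      rw [mul_one_div, div_lt_one (by positivity), pow_succ]
      have h3 : 0 < ℓ ^ E := by positivity
      nlinarith)
  have hww1 : 1 ≤ ww e σ := Nat.pos_of_ne_zero (ww_squarefree hinj hprime σ).ne_zero
  have hwwle : (ww e σ : ℝ) ≤ Real.exp (Real.sqrt ℓ) := by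
    refine le_trans ?_ hw
    have h3 : ww e σ ≤ (m ^ 20) ^ (m ^ 18) := by
      unfold ww
      calc ∏ i, e (i, σ i) ≤ ∏ _i : Fin (m ^ 18), m ^ 20 := prod_le_prod' fun i _ => hle _
        _ = (m ^ 20) ^ (m ^ 18) := by rw [prod_const, card_univ, Fintype.card_fin]
    exact_mod_cast h3
  refine ⟨ww e σ, Λ, ww_squarefree hinj hprime σ, hΛ1, ?_, hwwle, ?_, ?_⟩
  · intro p hp hpw
    unfold ww at hpw
    obtain ⟨i, -, hi⟩ := (hp.prime.dvd_finsetProd_iff _).1 hpw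
    have h4 : p = e (i, σ i) := (Nat.prime_dvd_prime_iff_eq hp (hprime _)).1 hi
    rw [h4]
    refine ⟨hdvd _, le_trans ?_ hml⟩
    exact_mod_cast hle (i, σ i)
  · rw [ww_primeFactors hinj hprime]
    refine le_trans ?_ hΛ
    apply mul_le_mul_of_nonneg_left _ (by positivity)
    have hΛ0 : (0 : ℝ) < Λ := by exact_mod_cast hΛ1
    rw [← Real.exp_log hΛ0]
    apply Real.exp_le_exp.2
    refine hΛy.trans (le_of_eq ?_)
    push_cast
    rw [← Real.rpow_natCast, ← Real.rpow_mul (by positivity), ← Real.rpow_natCast]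
    norm_num
  · intro q hqw
    have hq1 : 1 ≤ q := Nat.pos_of_dvd_of_pos hqw hww1
    have hqz8 : q ^ 8 ≤ z := by
      have hℓB : 1 ≤ ℓ ^ B := one_le_pow₀ hl1.le
      have h3 : (q : ℝ) ≤ ℓ ^ B * Real.exp (Real.sqrt ℓ) * ℓ ^ B := by
        have h4 : (q : ℝ) ≤ ww e σ := by exact_mod_cast Nat.le_of_dvd hww1 hqw
        have h5 : 0 < Real.exp (Real.sqrt ℓ) := Real.exp_pos _
        calc (q : ℝ) ≤ Real.exp (Real.sqrt ℓ) := h4.trans hwwle
          _ = 1 * Real.exp (Real.sqrt ℓ) * 1 := by ring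
          _ ≤ _ := by gcongr
      have h4 : ((q : ℝ)) ^ 8 ≤ z := (pow_le_pow_left₀ (by positivity) h3 8).trans hq8
      exact_mod_cast h4
    have hqz : q ≤ z := (Nat.le_self_pow (by norm_num) q).trans hqz8
    have hPu : ((1 : ℕ) : ℝ) * (1 : ℕ) ≤ ℓ ^ (2 * B) := by
      push_cast
      rw [one_mul]
      exact one_le_pow₀ hl1.le
    apply hlow z q hz₀ hq1 hqz8
    intro χ hχ1 hχ2
    rw [← hℓ, ← hs, Lj_conductor hq1 hqz χ]
    by_contra hlt
    push Not at hlt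
    have : NeZero q := ⟨by omega⟩
    have hc0 : χ.conductor ≠ 0 := χ.conductor_ne_zero
    have hc1 : χ.conductor ≠ 1 := fun h => hχ1 (χ.eq_one_iff_conductor_eq_one.2 h)
    have hcq : χ.conductor ∣ q := χ.conductor_dvd_level
    have hcw : χ.conductor ∣ 1 * ww e σ * 1 := by
      rw [one_mul, mul_one]
      exact hcq.trans hqw
    have hcle : χ.conductor ≤ q := Nat.le_of_dvd hq1 hcq
    by_cases hf : (χ.conductor : ℝ) ≤ ℓ ^ B₁
    · have h5 := hSW z hzW χ.conductor (by omega) hf χ.primitiveCharacter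
        χ.primitiveCharacter_isPrimitive s hs0 hs1
      linarith
    · push Not at hf
      have hmem : χ.conductor ∈ Bd := by
        rw [hBddef, mem_filter, mem_Icc]
        refine ⟨⟨by omega, ?_⟩, χ.primitiveCharacter, χ.primitiveCharacter_isPrimitive, hlt⟩
        rw [hQ, Nat.le_sqrt, Nat.le_sqrt]
        calc χ.conductor * χ.conductor * (χ.conductor * χ.conductor)
            ≤ q * q * (q * q) := Nat.mul_le_mul (Nat.mul_le_mul hcle hcle) (Nat.mul_le_mul hcle hcle)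
          _ = q ^ 4 := by ring
          _ ≤ q ^ 8 := Nat.pow_le_pow_right hq1 (by norm_num)
          _ ≤ z := hqz8
      apply hσ _ hmem
      constructor
      · have h5 := dvd_part1 hprime hle σ le_rfl le_rfl hcw
        have h6 : (χ.conductor : ℝ) ≤ ℓ ^ (2 * B) * ((m : ℝ) ^ 20) ^
            (((T χ.conductor).filter (fun x => x.2 = σ x.1)).card) := by
          calc (χ.conductor : ℝ) ≤ ((1 * 1 * (m ^ 20) ^
              (((univ.filter (fun x => e x ∣ χ.conductor)).filter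
                (fun x => x.2 = σ x.1)).card) : ℕ) : ℝ) := by exact_mod_cast h5
            _ = ((1 : ℕ) : ℝ) * (1 : ℕ) * ((m : ℝ) ^ 20) ^
              (((T χ.conductor).filter (fun x => x.2 = σ x.1)).card) := by
                push_cast
                simp only [one_mul]
                rfl
            _ ≤ _ := mul_le_mul_of_nonneg_right hPu (by positivity)
        have h7 : ℓ ^ (2 * B) * ℓ ^ (20 * B₃) < ℓ ^ (2 * B) * ((m : ℝ) ^ 20) ^
            (((T χ.conductor).filter (fun x => x.2 = σ x.1)).card) := by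
          rw [← pow_add]
          exact hf.trans_le h6
        exact lt_of_mul_lt_mul_left h7 (by positivity)
      · have h5 := dvd_part2 hinj hprime σ le_rfl le_rfl hcw
        refine le_trans ?_ hPu
        exact_mod_cast h5


theorem prm_div :
    ∃ (K₀ : ℕ) (c : ℝ), 1 ≤ K₀ ∧ 0 < c ∧ ∀ B : ℕ, ∃ z₁ : ℕ, ∀ z : ℕ, z₁ ≤ z →
  ∃ w Λ : ℕ, Squarefree w ∧ 1 ≤ Λ ∧ (∀ p : ℕ, p.Prime → p ∣ w → (p - 1) ∣ Λ ∧
    (p : ℝ) ≤ Real.log z) ∧ (w : ℝ) ≤ Real.exp (Real.sqrt (Real.log z)) ∧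
  Real.log z ^ B * Λ ≤ 2 ^ (w.primeFactors.card / 2) ∧
  ∀ d : ℕ, d ∣ w →
    c / (d.totient : ℝ) ≤ ∑ p ∈ (Ioc z (z ^ K₀)).filter
      (fun p => p.Prime ∧ p ≡ 1 [MOD d]), (1 : ℝ) / p := by
  have hSUM := Pool.Agent.W933.MHSum.sum_
  have hFL := Pool.Agent.W333.MH.fl
  have hDIFF := Pool.Agent.W505.MH.diff hFL hSUM
  have hA0 := Pool.Agent.W505.MH.a0 hFL hSUM
  have hCLS := Pool.Agent.W193.MH.Cls.cls hSUM
  have hB0 := Pool.Agent.H262R3.Lk.b0 Pool.Agent.W505.MH.bt hSUM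
  have hB2 := Pool.Agent.W440.MH.b2 hSUM
  have hALG := Pool.Agent.H262R3.Lk.alg hSUM
  have hLIN := Pool.Agent.W215.MH.lin hSUM hDIFF hA0 hB0 hB2 hALG Pool.Agent.W215.MH.eul hCLS
    Pool.Agent.W701.MH.abs_
  have hTAIL := Pool.Agent.W803.MH.tail Pool.Agent.W505.MH.bt hSUM
  exact prm_div' hLIN hTAIL Pool.Agent.H262R3.Lk.swq Pool.Agent.Y950.SMO.smo
    Pool.Agent.Y122.PSP.bad

end Pool.Agent.X283.AGP
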